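import Pool.Agent.W539.Cone.Model

/-!
# The nef cone conjecture for finite quotients of products

For a smooth projective `X` with `K_X ≡ 0` take `V = N^1(X)`, `L` the lattice of divisor classes,
`E = Nef^e(X)` and `Γ` the image of `Aut(X)`: a `ConeRep`, which is `Good` iff the nef cone
conjecture holds for `X`. For a product `X = ∏ X_i` with `N^1(X) = ⊕ N^1(X_i)` one has
`Nef^e(X) = ∏ Nef^e(X_i)`. If a finite group acts freely on `X` with image `G` in `Γ` and
quotient `Y`, then `N^1(Y)` is the fixed space of `G`, `Nef^e(Y) = Nef^e(X) ∩ N^1(Y)`, and the image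
of `Aut(Y)` contains the restrictions of a subgroup of finite index of the centraliser of `G`.
The theorem gives an exact rational polyhedral fundamental domain on `Nef^e(Y)`.
-/

namespace Pool.Agent.Results.MP_e49dc9_ag.BeauvilleBogomolovDescent

open Pool.Agent.W539.Cone

theorem result {ι : Type} [Fintype ι] {V : ι → Type} [∀ i, NormedAddCommGroup (V i)]
    [∀ i, NormedSpace ℝ (V i)] [∀ i, FiniteDimensional ℝ (V i)]
    (S : ∀ i, ConeRep (V i)) (hS : ∀ i, (S i).Good) (R : ConeRep (∀ i, V i)) (hR : IsProd S R)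
    (G : Subgroup ((∀ i, V i) ≃ₗ[ℝ] (∀ i, V i))) (Q : ConeRep (fixed G)) (hQ : IsQuot R G Q) :
    Q.Good :=
  prod_quot S hS R hR G Q hQ

end Pool.Agent.Results.MP_e49dc9_ag.BeauvilleBogomolovDescent
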